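import Mathlib
import Pool.Agent.Lib.MP_b5021c_nt.IfaceL1
import Pool.Agent.Lib.MP_b5021c_nt.H67.Zco

/-!
# Row PCZ: zero count for `q + f`
-/

set_option autoImplicit false

namespace Pool.Agent.B5.H57

open Polynomial Filter Topology Pool.Agent.MP_b5021c_nt

/-- `p (r z)` -/
noncomputable def scl (r : ℝ) (p : ℂ[X]) : ℂ[X] := p.comp (C (r : ℂ) * X)

theorem coeff_scl (r : ℝ) (p : ℂ[X]) (n : ℕ) : (scl r p).coeff n = p.coeff n * (r : ℂ) ^ n := by
  rw [scl, comp_C_mul_X_coeff]

theorem eval_scl (r : ℝ) (p : ℂ[X]) (z : ℂ) : (scl r p).eval z = p.eval (r * z) := by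
  rw [scl, eval_comp]
  simp

theorem natDegree_scl (r : ℝ) (p : ℂ[X]) {N : ℕ} (h : p.natDegree ≤ N) :
    (scl r p).natDegree ≤ N := by
  rw [natDegree_le_iff_coeff_eq_zero] at h ⊢
  intro n hn
  rw [coeff_scl, h n hn, zero_mul]

theorem nz_scl (p : ℂ[X]) {r : ℝ} (hr : 0 < r) :
    nz (scl r p) = (p.roots.filter (fun w => ‖w‖ < r)).card := by
  have hu : IsUnit (r : ℂ) := isUnit_iff_ne_zero.2 (by exact_mod_cast hr.ne')
  have h := map_roots_comp_C_mul_X_add_C p (r : ℂ) 0 hu
  rw [C_0, add_zero] at h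
  conv_rhs => rw [← h]
  rw [Multiset.filter_map, Multiset.card_map]
  unfold nz scl
  congr 1
  refine Multiset.filter_congr fun x _ => ?_
  simp only [Function.comp_apply, add_zero, norm_mul, Complex.norm_real, Real.norm_eq_abs,
    abs_of_pos hr]
  constructor
  · intro hx
    nlinarith
  · intro hx
    by_contra hcon
    push Not at hcon
    nlinarith

/-- the family `q + t f` -/
noncomputable def fam (q f : ℂ[X]) (t : ℝ) : ℂ[X] := q + C (t : ℂ) * f

theorem coeff_fam (q f : ℂ[X]) (t : ℝ) (n : ℕ) :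
    (fam q f t).coeff n = q.coeff n + t * f.coeff n := by
  rw [fam, coeff_add, coeff_C_mul]

theorem eval_fam (q f : ℂ[X]) (t : ℝ) (z : ℂ) :
    (fam q f t).eval z = q.eval z + t * f.eval z := by
  rw [fam, eval_add, eval_mul, eval_C]

theorem natDegree_fam (q f : ℂ[X]) (t : ℝ) :
    (fam q f t).natDegree ≤ max q.natDegree f.natDegree := by
  rw [fam]
  refine (natDegree_add_le _ _).trans (max_le_max le_rfl ?_)
  exact natDegree_C_mul_le _ _

/-- (PCZ) -/
theorem pcz : PCZS := by
  intro a q f hq hz hf hne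
  by_contra hcon
  push Not at hcon
  -- the radius
  obtain ⟨r, hr0, hr1, hr⟩ : ∃ r : ℝ, 0 < r ∧ r < 1 ∧
      ∀ w ∈ (q + f).roots, ‖w‖ < 1 → ‖w‖ < r := by
    classical
    have h1 : ∀ᶠ r in 𝓝[<] (1 : ℝ), r ∈ Set.Ioo (0 : ℝ) 1 := Ioo_mem_nhdsLT zero_lt_one
    have h2 : ∀ᶠ r in 𝓝[<] (1 : ℝ), ∀ w ∈ (q + f).roots.toFinset.filter (fun w => ‖w‖ < 1),
        ‖w‖ < r := by
      rw [Filter.eventually_all_finset]
      intro w hw
      rw [Finset.mem_filter] at hw
      have h3 : Set.Ioo ‖w‖ 1 ∈ 𝓝[<] (1 : ℝ) := Ioo_mem_nhdsLT hw.2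
      exact Filter.mem_of_superset h3 fun x hx => hx.1
    obtain ⟨r, h3, h4⟩ := (h1.and h2).exists
    refine ⟨r, h3.1, h3.2, fun w hw hw1 => h4 w ?_⟩
    rw [Finset.mem_filter, Multiset.mem_toFinset]
    exact ⟨hw, hw1⟩
  have hP : ∀ z : ℂ, ‖z‖ = r → (q + f).eval z ≠ 0 := by
    intro z hzr h0
    have h1 : z ∈ (q + f).roots := (mem_roots hne).2 h0
    have h2 := hr z h1 (by rw [hzr]; exact hr1)
    rw [hzr] at h2
    exact lt_irrefl _ h2
  -- compactness
  have hcomp : IsCompact (Metric.sphere (0 : ℂ) r) := isCompact_sphere 0 r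
  have hnon : (Metric.sphere (0 : ℂ) r).Nonempty := ⟨(r : ℂ), by simp [abs_of_pos hr0]⟩
  obtain ⟨z1, hz1, hmin⟩ := hcomp.exists_isMinOn hnon
    (f := fun z => ‖(q + f).eval z‖) ((q + f).continuous.norm.continuousOn)
  obtain ⟨z2, hz2, hmax⟩ := hcomp.exists_isMaxOn hnon
    (f := fun z => ‖f.eval z‖) (f.continuous.norm.continuousOn)
  have hδ : 0 < ‖(q + f).eval z1‖ := norm_pos_iff.2 (hP z1 (by simpa using hz1))
  have hC : 0 ≤ ‖f.eval z2‖ := norm_nonneg _
  obtain ⟨t0, ht0, ht1, ht⟩ : ∃ t0 : ℝ, 0 ≤ t0 ∧ t0 < 1 ∧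
      (1 - t0) * ‖f.eval z2‖ < ‖(q + f).eval z1‖ := by
    set D := ‖(q + f).eval z1‖ with hD
    set B := ‖f.eval z2‖ with hB
    refine ⟨1 - D / (D + B + 1), ?_, ?_, ?_⟩
    · rw [sub_nonneg, div_le_one (by positivity)]
      linarith
    · have : 0 < D / (D + B + 1) := by positivity
      linarith
    · rw [sub_sub_cancel, div_mul_eq_mul_div, div_lt_iff₀ (by positivity)]
      nlinarith
  -- first family
  have key1 : nz (scl r (fam q f t0)) = nz (scl r (fam q f 1)) := by
    have h := H67.zco (fun s => scl r (fam q f (t0 + s * (1 - t0))))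
      (max q.natDegree f.natDegree)
      (fun s _ => natDegree_scl r _ (natDegree_fam q f _))
      (fun i => by
        simp only [coeff_scl, coeff_fam]
        refine Continuous.continuousOn ?_
        fun_prop)
      (by
        intro s hs z hz1' h0
        simp only [eval_scl, eval_fam] at h0
        set w : ℂ := (r : ℂ) * z with hw
        have hwr : ‖w‖ = r := by
          rw [hw, norm_mul, hz1', mul_one, Complex.norm_real, Real.norm_eq_abs, abs_of_pos hr0]
        have hws : w ∈ Metric.sphere (0 : ℂ) r := by simpa using hwr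
        have h1 : ‖(q + f).eval z1‖ ≤ ‖(q + f).eval w‖ := hmin hws
        have h2 : ‖f.eval w‖ ≤ ‖f.eval z2‖ := hmax hws
        have h3 : (q + f).eval w = ((1 - (t0 + s * (1 - t0)) : ℝ) : ℂ) * f.eval w := by
          rw [eval_add]
          push_cast
          push_cast at h0
          linear_combination h0
        rw [h3, norm_mul, Complex.norm_real, Real.norm_eq_abs, abs_of_nonneg (by nlinarith [hs.1, hs.2])] at h1
        have h4 : (1 - (t0 + s * (1 - t0))) * ‖f.eval w‖ ≤ (1 - t0) * ‖f.eval z2‖ := by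
          refine mul_le_mul (by nlinarith [hs.1, hs.2]) h2 (norm_nonneg _) (by linarith)
        linarith)
    simpa using h
  -- second family
  have key2 : nz (fam q f 0) = nz (fam q f t0) := by
    have h := H67.zco (fun s => fam q f (s * t0)) (max q.natDegree f.natDegree)
      (fun s _ => natDegree_fam q f _)
      (fun i => by
        simp only [coeff_fam]
        refine Continuous.continuousOn ?_
        fun_prop)
      (by
        intro s hs z hz1' h0
        simp only [eval_fam] at h0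
        have h1 := hf z hz1'
        have h2 : ‖q.eval z‖ = s * t0 * ‖f.eval z‖ := by
          have h3 : q.eval z = -(((s * t0 : ℝ) : ℂ) * f.eval z) := by
            linear_combination h0
          rw [h3, norm_neg, norm_mul, Complex.norm_real, Real.norm_eq_abs,
            abs_of_nonneg (mul_nonneg hs.1 ht0)]
        have h3 : 0 < ‖q.eval z‖ := norm_pos_iff.2 (hz z hz1')
        have h4 : s * t0 < 1 := by nlinarith [hs.1, hs.2]
        nlinarith [mul_nonneg hs.1 ht0])
    simpa using h
  have e0 : fam q f 0 = q := by simp [fam]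
  have e1 : fam q f 1 = q + f := by simp [fam]
  have k1 : nz q = 1 := by
    unfold nz
    rw [hq]
    rfl
  rw [e0, k1] at key2
  rw [e1, nz_scl _ hr0, nz_scl _ hr0] at key1
  have k2 : ((fam q f t0).roots.filter (fun w => ‖w‖ < r)).card
      ≤ ((fam q f t0).roots.filter (fun w => ‖w‖ < 1)).card := by
    refine Multiset.card_le_card (Multiset.monotone_filter_right _ fun w hw => ?_)
    exact lt_trans hw hr1
  have k3 : ((q + f).roots.filter (fun w => ‖w‖ < r)).card
      = ((q + f).roots.filter (fun w => ‖w‖ < 1)).card := by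
    congr 1
    refine Multiset.filter_congr fun w hw => ⟨fun h => lt_trans h hr1, fun h => hr w hw h⟩
  have k4 : ((fam q f t0).roots.filter (fun w => ‖w‖ < 1)).card = 1 := key2.symm
  omega

end Pool.Agent.B5.H57
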