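import Pool.Agent.Lib.MP_b5021c_nt.IfaceK1

/-! Row PSQ: the reversed minimal polynomial of a Pisot number. -/

set_option autoImplicit false

namespace Pool.Agent.MP_b5021c_nt

open Polynomial

theorem psq : PsqS := by
  intro θ hθ
  obtain ⟨h1, hint, hroots⟩ := hθ
  set μ : ℤ[X] := minpoly ℤ θ with hμ
  have hmonic : μ.Monic := minpoly.monic hint
  set P : ℂ[X] := μ.map (Int.castRingHom ℂ) with hP
  have hPmonic : P.Monic := hmonic.map _
  -- separability
  have hsepQ : (μ.map (algebraMap ℤ ℚ)).Separable := by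
    rw [hμ, ← minpoly.isIntegrallyClosed_eq_field_fractions' ℚ hint]
    exact (minpoly.irreducible hint.tower_top).separable
  have hsep : P.Separable := by
    have h2 : P = (μ.map (algebraMap ℤ ℚ)).map (algebraMap ℚ ℂ) := by
      rw [hP, Polynomial.map_map]
      congr 1
    rw [h2]
    exact hsepQ.map
  have hPeval : ∀ z : ℂ, P.eval z = aeval z μ := by
    intro z
    rw [hP, eval_map, aeval_def]
    rfl
  have hθroot : P.eval (θ : ℂ) = 0 := by
    rw [hPeval]
    have h3 : aeval θ μ = 0 := minpoly.aeval ℤ θ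
    have h4 : aeval (algebraMap ℝ ℂ θ) μ = algebraMap ℝ ℂ (aeval θ μ) :=
      aeval_algebraMap_apply ℂ θ μ
    rw [h3, map_zero] at h4
    exact h4
  obtain ⟨R, hR⟩ : (X - C (θ : ℂ)) ∣ P := dvd_iff_isRoot.2 hθroot
  have hRmonic : R.Monic := by
    rw [hR] at hPmonic
    exact (monic_X_sub_C _).of_mul_monic_left hPmonic
  have hRθ : R.eval (θ : ℂ) ≠ 0 := by
    intro h0
    rw [hR] at hsep
    obtain ⟨u, v, huv⟩ := hsep.isCoprime
    have h5 := congrArg (fun p : ℂ[X] => p.eval (θ : ℂ)) huv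
    simp [h0] at h5
  refine ⟨h1, ?_, R.reverse, ?_, ?_⟩
  · rw [coeff_zero_reverse]
    exact hmonic
  · have h6 : (μ.reverse).map (Int.castRingHom ℂ) = P.reverse := by
      rw [hP]
      ext n
      rw [coeff_map, coeff_reverse, coeff_reverse, coeff_map,
        natDegree_map_eq_of_injective Int.cast_injective]
    rw [h6, hR, reverse_mul_of_domain]
    congr 1
    have h7 : (X - C (θ : ℂ)).natDegree = 1 := natDegree_X_sub_C _
    ext n
    rw [coeff_reverse, h7]
    rcases n with _ | _ | n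
    · rw [revAt_le (by omega)]
      simp
    · rw [revAt_le (by omega)]
      have h16 : (1 : ℂ[X]).coeff 1 = 0 := by rw [coeff_one]; simp
      simp [h16]
    · rw [revAt_eq_self_of_lt (by omega)]
      simp [coeff_X, coeff_one]
  · intro z hz h0
    have hz0 : z ≠ 0 := by
      rintro rfl
      rw [← coeff_zero_eq_eval_zero, coeff_zero_reverse, hRmonic] at h0
      exact one_ne_zero h0
    have h8 : R.eval z⁻¹ = 0 := by
      have : Invertible z⁻¹ := invertibleOfNonzero (inv_ne_zero hz0)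
      have h9 := eval₂_reverse_eq_zero_iff (RingHom.id ℂ) z⁻¹ R
      have h10 : ⅟(z⁻¹) = z := by
        rw [invOf_eq_inv, inv_inv]
      rw [h10] at h9
      exact h9.1 h0
    have h11 : P.eval z⁻¹ = 0 := by rw [hR, eval_mul, h8, mul_zero]
    have h12 : z⁻¹ ≠ (θ : ℂ) := by
      intro h
      rw [h] at h8
      exact hRθ h8
    have h13 := hroots z⁻¹ (by rw [← hPeval]; exact h11) h12
    rw [norm_inv] at h13
    have h14 : 0 < ‖z‖ := norm_pos_iff.2 hz0
    have h15 : 1 ≤ ‖z‖⁻¹ := (one_le_inv₀ h14).2 hz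
    linarith

end Pool.Agent.MP_b5021c_nt
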